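import Mathlib

set_option autoImplicit false

namespace Pool.Agent.Results.MP_f4b4d0_co.Counter

open Finset

/-- Difference of the `i`-th power sums of `S` and of its complement in `{0, ..., 2^n - 1}`. -/
def defect (n i : ℕ) (S : Finset ℕ) : ℤ :=
  ∑ s ∈ S, (s : ℤ) ^ i - ∑ t ∈ range (2 ^ n) \ S, (t : ℤ) ^ i

/-- The Thue-Morse part: numbers with an even number of binary ones. -/
def tm (n : ℕ) : Finset ℕ := (range (2 ^ n)).filter fun k => Even (Nat.digits 2 k).sum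

def S0 : Finset ℕ := List.toFinset
    [0, 3, 4, 6, 9, 12, 13, 14, 17, 18, 21, 23, 24, 26, 27, 29, 32, 33, 35, 39, 42, 44, 47, 50, 
  51, 52, 53, 54, 56, 57, 59, 60, 62, 63, 66, 69, 72, 78, 79, 81, 82, 84, 86, 87, 89, 90, 91, 
  93, 96, 97, 99, 102, 105, 107, 108, 111, 112, 116, 117, 119, 120, 122, 125, 126]

theorem result : ∃ n : ℕ, 1 ≤ n ∧ ∃ S ⊆ range (2 ^ n), (∀ i < n, defect n i S = 0) ∧
    |defect n n S| < |defect n n (tm n)| := by
  refine ⟨7, by norm_num, S0, ?_, ?_, ?_⟩ <;> decide +kernel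

end Pool.Agent.Results.MP_f4b4d0_co.Counter
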